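import Mathlib

namespace Pool.Agent.H.MP_4d240a_al

open LaurentPolynomial
open Finsupp (single single_add)

noncomputable section

abbrev D := LaurentPolynomial ℤ
abbrev L := Option (List ℕ)
abbrev V := L →₀ D
abbrev E := Module.End ℤ V

def wid : List ℕ → ℚ
  | [] => 1
  | c :: l => wid l / 2 ^ (c + 1)

def pos : List ℕ → ℚ
  | [] => 0
  | c :: l => pos l + wid l / 2 ^ (c + 1)

def key : L → ℚ
  | none => 1
  | some l => pos l

lemma wid_pos (l : List ℕ) : 0 < wid l := by
  induction l with
  | nil => simp [wid]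
  | cons c l ih => simp only [wid]; positivity

lemma pos_wid (l : List ℕ) : pos l + wid l ≤ 1 := by
  induction l with
  | nil => simp [wid, pos]
  | cons c l ih =>
    simp only [wid, pos]
    have h := wid_pos l
    have h2 : (1 : ℚ) ≤ 2 ^ c := one_le_pow₀ (by norm_num)
    have : wid l / 2 ^ (c + 1) ≤ wid l / 2 := by
      apply div_le_div_of_nonneg_left h.le (by norm_num)
      rw [pow_succ]; linarith
    linarith

lemma pos_lt_one (l : List ℕ) : pos l < 1 := by
  have := pos_wid l; have := wid_pos l; linarith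

lemma key_le (l : L) : key l ≤ 1 := by
  cases l with
  | none => simp [key]
  | some l => exact (pos_lt_one l).le

lemma pos_cons (c : ℕ) (l : List ℕ) : pos l < pos (c :: l) := by
  simp only [pos]
  have := wid_pos l
  have : 0 < wid l / 2 ^ (c + 1) := by positivity
  linarith

def nxt : List ℕ → L
  | [] => none
  | 0 :: l => nxt l
  | (c + 1) :: l => some (c :: l)

lemma key_nxt (l : List ℕ) : key (nxt l) = pos l + wid l := by
  induction l with
  | nil => simp [nxt, key, pos, wid]
  | cons c l ih =>
    cases c with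
    | zero => simp only [nxt, ih, pos, wid]; ring
    | succ c => simp only [nxt, key, pos, wid]; field_simp; ring

def strip : List ℕ → List ℕ
  | 0 :: 1 :: l => strip l
  | l => l

lemma strip_le : ∀ l : List ℕ, pos l + wid l / 2 ≤ pos (strip l) + wid (strip l) / 2 := by
  intro l
  induction l using strip.induct with
  | case1 l ih =>
    simp only [strip, pos, wid]
    have := wid_pos l
    norm_num
    linarith
  | case2 l h => rw [strip]; exact h

def Tr (r : E) (p : D) : Prop :=
  ∀ (κ : ℚ) (v : V), (∀ l, key l < κ → v l = 0) → ∀ l, key l ≤ κ → r v l = p * v l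

def S : Subring E where
  carrier := {r | ∃ p, Tr r p}
  one_mem' := ⟨1, fun κ v _ l _ => by simp⟩
  zero_mem' := ⟨0, fun κ v _ l _ => by simp⟩
  mul_mem' := by
    rintro r r' ⟨p, hp⟩ ⟨p', hp'⟩
    refine ⟨p * p', fun κ v hv l hl => ?_⟩
    rw [Module.End.mul_apply, hp κ (r' v) _ l hl, hp' κ v hv l hl, mul_assoc]
    intro l' hl'
    rw [hp' κ v hv l' hl'.le, hv l' hl', mul_zero]
  add_mem' := by
    rintro r r' ⟨p, hp⟩ ⟨p', hp'⟩
    refine ⟨p + p', fun κ v hv l hl => ?_⟩
    simp [hp κ v hv l hl, hp' κ v hv l hl, add_mul]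
  neg_mem' := by
    rintro r ⟨p, hp⟩
    refine ⟨-p, fun κ v hv l hl => ?_⟩
    simp [hp κ v hv l hl]

def e (l : L) (i : ℤ) : V := single l (T i)

def B : Module.Basis (Σ _ : L, ℤ) ℤ V := Finsupp.basis (fun _ => AddMonoidAlgebra.basis ℤ ℤ)

lemma B_apply (l : L) (i : ℤ) : B ⟨l, i⟩ = e l i := by
  simp only [B, e, Finsupp.coe_basis, AddMonoidAlgebra.basis_apply]
  rfl

def mk {W : Type} [AddCommGroup W] (h : L → ℤ → W) : V →ₗ[ℤ] W := B.constr ℤ fun x => h x.1 x.2

@[simp] lemma mk_e {W : Type} [AddCommGroup W] (h : L → ℤ → W) (l : L) (i : ℤ) :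
    mk h (e l i) = h l i := by
  rw [← B_apply, mk, Module.Basis.constr_basis]

lemma ext_e {W : Type} [AddCommGroup W] {f g : V →ₗ[ℤ] W} (h : ∀ l i, f (e l i) = g (e l i)) :
    f = g := B.ext fun x => by
  obtain ⟨l, i⟩ := x
  rw [B_apply, h]

lemma tr_of (r : E) (p : D)
    (h : ∀ l i l', key l' ≤ key l → r (e l i) l' = p * e l i l') : Tr r p := by
  intro κ v hv l' hl'
  have h1 : ∀ l d, key l' ≤ key l → r (single l d) l' = p * (single l d : V) l' := by
    intro l d hl
    induction d using LaurentPolynomial.induction_on' with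
    | add a b ha hb => simp only [single_add, map_add, Finsupp.add_apply, ha, hb, mul_add]
    | C_mul_T n a =>
      rw [← smul_eq_C_mul, ← Finsupp.smul_single, map_smul, Finsupp.smul_apply,
        Finsupp.smul_apply, mul_smul_comm]
      congr 1
      exact h l n l' hl
  conv_lhs => rw [← Finsupp.sum_single v]
  conv_rhs => rw [← Finsupp.sum_single v]
  rw [Finsupp.sum, map_sum, Finsupp.finsetSum_apply, Finsupp.finsetSum_apply, Finset.mul_sum]
  refine Finset.sum_congr rfl fun l hl => h1 l _ ?_
  by_contra hlt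
  push Not at hlt
  exact (Finsupp.mem_support_iff.1 hl) (hv l (lt_of_lt_of_le hlt hl'))

lemma e_high {l l' : L} (i : ℤ) (h : key l' < key l) : e l i l' = 0 := by
  apply Finsupp.single_eq_of_ne
  rintro rfl
  exact lt_irrefl _ h

lemma e_shift (l l' : L) (i j : ℤ) : e l (j + i) l' = T j * e l i l' := by
  by_cases h : l' = l
  · subst h; simp only [e, Finsupp.single_eq_same, T_add]
  · simp [e, Finsupp.single_eq_of_ne h]

def sE : E := mk fun l i => match l with
  | none => 0
  | some _ => e none i

lemma sE_mem : sE ∈ S := ⟨0, tr_of _ _ fun l i l' h => by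
  cases l with
  | none => simp [sE]
  | some l =>
    simp only [sE, mk_e, zero_mul]
    exact e_high _ (lt_of_le_of_lt h (pos_lt_one l))⟩

lemma e_ne (l : L) (i : ℤ) : e l i ≠ 0 := by
  simp only [e, ne_eq, Finsupp.single_eq_zero]
  exact (isUnit_T i).ne_zero

lemma sE_ne : sE ≠ 0 := by
  intro h
  have : sE (e (some []) 0) = 0 := by rw [h]; rfl
  simp only [sE, mk_e] at this
  exact e_ne _ _ this

lemma mul_sE (r : E) (h : Tr r 0) : r * sE = 0 := by
  apply ext_e
  intro l i
  cases l with
  | none => simp [sE]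
  | some l =>
    simp only [sE, Module.End.mul_apply, mk_e, LinearMap.zero_apply]
    ext1 l'
    rw [h 1 (e none i) (fun l hl => e_high _ hl) l' (key_le _)]
    simp

theorem mc (f g : ℕ → S) (hfin : {j | g j ≠ 0}.Finite) (hg : ∃ j, g j ≠ 0)
    (h : ∀ n, ∑ x ∈ Finset.HasAntidiagonal.antidiagonal n, f x.1 * g x.2 = 0) :
    ∃ s : S, s ≠ 0 ∧ ∀ i, f i * s = 0 := by
  classical
  choose p hp using fun i => (f i).2
  by_cases hp0 : ∀ i, p i = 0
  · refine ⟨⟨sE, sE_mem⟩, fun h => sE_ne (congrArg Subtype.val h), fun i => Subtype.ext ?_⟩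
    exact mul_sE _ (hp0 i ▸ hp i)
  exfalso
  push Not at hp0
  obtain ⟨j1, hj1⟩ := hg
  have : ∃ v, (g j1 : E) v ≠ 0 := by
    by_contra hc
    push Not at hc
    exact hj1 (Subtype.ext (LinearMap.ext hc))
  obtain ⟨v, hv⟩ := this
  let F : Finset L := hfin.toFinset.biUnion fun j => ((g j : E) v).support
  have hF : ∀ l, l ∈ F ↔ ∃ j, (g j : E) v l ≠ 0 := by
    intro l
    simp only [F, Finset.mem_biUnion, Set.Finite.mem_toFinset, Set.mem_ofPred_eq,
      Finsupp.mem_support_iff]
    constructor
    · rintro ⟨j, _, h⟩; exact ⟨j, h⟩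
    · rintro ⟨j, h⟩
      refine ⟨j, ?_, h⟩
      intro h0
      apply h
      simp [h0]
  have hne : F.Nonempty := by
    obtain ⟨l, hl⟩ := Finsupp.support_nonempty_iff.2 hv
    exact ⟨l, (hF l).2 ⟨j1, Finsupp.mem_support_iff.1 hl⟩⟩
  obtain ⟨l0, hl0, hmin⟩ := F.exists_min_image key hne
  have hq := (hF l0).1 hl0
  have hup : ∀ j l, key l < key l0 → (g j : E) v l = 0 := by
    intro j l hl
    by_contra hc
    exact absurd (hmin l ((hF l).2 ⟨j, hc⟩)) (not_le.2 hl)
  let i0 := Nat.find hp0
  let j0 := Nat.find hq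
  have h1 := congrArg (fun r : S => (r : E) v l0) (h (i0 + j0))
  simp only [AddSubmonoidClass.coe_finsetSum, Subring.coe_mul, LinearMap.coe_sum,
    Finset.sum_apply, Module.End.mul_apply, Finsupp.finsetSum_apply, ZeroMemClass.coe_zero,
    LinearMap.zero_apply, Finsupp.coe_zero, Pi.zero_apply] at h1
  rw [Finset.sum_eq_single (i0, j0)] at h1
  · rw [hp i0 _ _ (hup j0) l0 le_rfl] at h1
    exact mul_ne_zero (Nat.find_spec hp0) (Nat.find_spec hq) h1
  · rintro ⟨i, j⟩ hij hne'
    rw [hp i _ _ (hup j) l0 le_rfl]
    have hs : i + j = i0 + j0 := by simpa using hij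
    by_cases hi : i < i0
    · have := Nat.find_min hp0 hi
      push Not at this
      rw [this, zero_mul]
    · have hj : j < j0 := by
        by_contra hj
        apply hne'
        have : i = i0 := by omega
        have : j = j0 := by omega
        simp [*]
      have := Nat.find_min hq hj
      push Not at this
      rw [this, mul_zero]
  · intro hc
    simp at hc

def aE : E := mk fun l i => match l with
  | none => e none (1 + i)
  | some l => e (some l) (1 + i) - if i < 0 then e (some ((-i - 1).toNat :: l)) 0 else 0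

def yE : E := mk fun l i => match l with
  | none => e none (-1 + i)
  | some l => e (some l) (-1 + i) - if i = 1 then e (nxt l) (-1) else 0

lemma aE_mem : aE ∈ S := ⟨T 1, tr_of _ _ fun l i l' h => by
  cases l with
  | none => simp only [aE, mk_e, e_shift]
  | some l =>
    simp only [aE, mk_e, Finsupp.sub_apply, e_shift]
    split_ifs
    · rw [e_high (l := some (_ :: l)) _ (lt_of_le_of_lt h (pos_cons _ l)), sub_zero]
    · simp⟩

lemma yE_mem : yE ∈ S := ⟨T (-1), tr_of _ _ fun l i l' h => by
  cases l with
  | none => simp only [yE, mk_e, e_shift]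
  | some l =>
    simp only [yE, mk_e, Finsupp.sub_apply, e_shift]
    split_ifs
    · rw [e_high (l := nxt l), sub_zero]
      rw [key_nxt]
      have := wid_pos l
      have h' : key l' ≤ pos l := h
      linarith
    · simp⟩

lemma yaa : yE * (aE * aE) = aE := by
  apply ext_e
  intro l i
  cases l with
  | none =>
    simp only [Module.End.mul_apply, aE, yE, mk_e]
    congr 1; ring
  | some l =>
    simp only [Module.End.mul_apply]
    rcases lt_trichotomy i (-1) with hi | hi | hi
    · obtain ⟨m, rfl⟩ : ∃ m : ℕ, i = -(m : ℤ) - 2 := ⟨(-i - 2).toNat, by omega⟩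
      have h1 : aE (e (some l) (-(m : ℤ) - 2)) =
          e (some l) (-(m : ℤ) - 1) - e (some ((m + 1) :: l)) 0 := by
        simp only [aE, mk_e]
        rw [if_pos (by omega)]
        congr 2
        · ring
        · congr 2; omega
      have h2 : aE (e (some l) (-(m : ℤ) - 1)) =
          e (some l) (-(m : ℤ)) - e (some (m :: l)) 0 := by
        simp only [aE, mk_e]
        rw [if_pos (by omega)]
        congr 2
        · ring
        · congr 2; omega
      have h3 : aE (e (some ((m + 1) :: l)) 0) = e (some ((m + 1) :: l)) 1 := by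
        simp [aE]
      have h4 : yE (e (some l) (-(m : ℤ))) = e (some l) (-(m : ℤ) - 1) := by
        simp only [yE, mk_e]
        rw [if_neg (by omega), sub_zero]
        congr 1; ring
      have h5 : yE (e (some (m :: l)) 0) = e (some (m :: l)) (-1) := by simp [yE]
      have h6 : yE (e (some ((m + 1) :: l)) 1) =
          e (some ((m + 1) :: l)) 0 - e (some (m :: l)) (-1) := by simp [yE, nxt]
      rw [h1, map_sub, h2, h3, map_sub, map_sub, h4, h5, h6]
      abel
    · subst hi
      simp [aE, yE, nxt]
    · have h1 : aE (e (some l) i) = e (some l) (1 + i) := by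
        simp only [aE, mk_e]
        rw [if_neg (by omega), sub_zero]
      have h2 : aE (e (some l) (1 + i)) = e (some l) (1 + (1 + i)) := by
        simp only [aE, mk_e]
        rw [if_neg (by omega), sub_zero]
      rw [h1, h2]
      simp only [yE, mk_e]
      rw [if_neg (by omega), sub_zero]
      congr 1; ring

def lam : V →ₗ[ℤ] ℤ := mk fun l i => match l with
  | none => 0
  | some l => if i = 0 ∧ ∀ x ∈ l, x = 0 then 1 else 0

lemma lam_a : lam ∘ₗ aE = 0 := by
  apply ext_e
  intro l i
  cases l with
  | none => simp [lam, aE]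
  | some l =>
    simp only [LinearMap.comp_apply, aE, mk_e, map_sub, LinearMap.zero_apply]
    rcases lt_trichotomy i (-1) with hi | hi | hi
    · rw [if_pos (by omega)]
      simp only [lam, mk_e]
      rw [if_neg (by omega), if_neg, sub_zero]
      rintro ⟨_, h⟩
      have := h _ List.mem_cons_self
      omega
    · subst hi
      simp [lam]
    · rw [if_neg (by omega)]
      simp only [lam, mk_e, map_zero]
      rw [if_neg (by omega), sub_zero]

lemma a_ne (z : E) : aE ≠ aE * aE * z := by
  intro h
  have h1 : yE * aE = aE * z := by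
    conv_lhs => rw [h, ← mul_assoc, yaa]
  have h2 : lam ((yE * aE) (e (some []) 0)) = 0 := by
    rw [h1]
    exact LinearMap.congr_fun lam_a _
  simp [aE, yE, lam, nxt] at h2

def AE : E := mk fun l i => match l with
  | none => 0
  | some l => e (some (0 :: strip l)) i

def YE : E := mk fun l i => match l with
  | none => 0
  | some l => e (some (1 :: l)) i

lemma AE_mem : AE ∈ S := ⟨0, tr_of _ _ fun l i l' h => by
  cases l with
  | none => simp [AE]
  | some l =>
    simp only [AE, mk_e, zero_mul]
    apply e_high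
    have h' : key l' ≤ pos l := h
    have h1 := strip_le l
    have h2 := wid_pos l
    simp only [key, pos] at h' ⊢
    norm_num
    linarith⟩

lemma YE_mem : YE ∈ S := ⟨0, tr_of _ _ fun l i l' h => by
  cases l with
  | none => simp [YE]
  | some l =>
    simp only [YE, mk_e, zero_mul]
    exact e_high _ (lt_of_le_of_lt h (pos_cons _ l))⟩

lemma AAY : AE * AE * YE = AE := by
  apply ext_e
  intro l i
  cases l with
  | none => simp [AE, YE]
  | some l => simp [AE, YE, strip]

lemma A_ne (z : E) : AE ≠ z * (AE * AE) := by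
  intro h
  have h1 : AE (e (some []) 0) = AE (e (some [1, 0]) 0) := by
    rw [h]
    simp [AE, strip]
  simp only [AE, mk_e, strip] at h1
  unfold e at h1
  have := (Finsupp.single_left_inj (isUnit_T (R := ℤ) 0).ne_zero).1 h1
  simp at this

end

end Pool.Agent.H.MP_4d240a_al
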